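import Pool.Agent.U728.KP.Stm

set_option autoImplicit false

/-!
# Project KP, package SYND: from the alphabet with `2 ^ t` letters to the binary alphabet
-/

namespace Pool.Agent.U94.KP

open Finset Pool.Agent.Results.MP_71830d_co.Separation Pool.Agent.U728.KP

theorem fib {n k : ℕ} (c : Fin n → (Fin k → ZMod 2)) (hc : ∀ h, h ≠ 0 → ∃ i, c i = h)
    (h : Fin k → ZMod 2) : (univ.filter fun v : Fin n → Bool => synd c v = h).card =
      (univ.filter fun v : Fin n → Bool => synd c v = 0).card := by
  by_cases hh : h = 0
  · rw [hh]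
  · obtain ⟨i, hi⟩ := hc h hh
    rw [card_filter, card_filter,
      ← sum_flip (f := flp) flp_flp i (fun v => if synd c v = h then 1 else 0)]
    apply Finset.sum_congr rfl
    intro v _
    rw [synd_flp, hi]
    simp only [add_eq_right]

/-- the blocks -/
def blk {m b : ℕ} (x : Fin (m * b) → Bool) (i : Fin m) : Fin b → Bool :=
  fun j => x (finProdFinEquiv (i, j))

theorem blk_inj {m b : ℕ} : Function.Injective (blk : (Fin (m * b) → Bool) → Fin m → Fin b → Bool) := by
  intro x y h
  funext k
  obtain ⟨⟨i, j⟩, rfl⟩ := finProdFinEquiv.surjective k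
  exact congrFun (congrFun h i) j

theorem blk_flp {m b : ℕ} (x : Fin (m * b) → Bool) (i : Fin m) (j : Fin b) :
    blk (flp x (finProdFinEquiv (i, j))) i = flp (blk x i) j := by
  funext j'
  by_cases h : j' = j
  · subst h
    rw [flp_self]
    exact flp_self _ _
  · rw [flp_of_ne _ h]
    exact flp_of_ne _ fun h' => h (Prod.mk.inj (finProdFinEquiv.injective h')).2

theorem blk_flp_ne {m b : ℕ} (x : Fin (m * b) → Bool) (i i' : Fin m) (j : Fin b) (hi : i' ≠ i) :
    blk (flp x (finProdFinEquiv (i, j))) i' = blk x i' := by
  funext j'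
  exact flp_of_ne _ fun h' => hi (Prod.mk.inj (finProdFinEquiv.injective h')).1

theorem t_SYND : S_SYND := by
  classical
  intro m t N ht hC
  obtain ⟨C, hcov, hcard⟩ := hC
  set b := 2 ^ t - 1 with hb
  -- the columns
  have hN : Fintype.card {h : Fin t → ZMod 2 // h ≠ 0} = b := by
    have : Fintype.card {h : Fin t → ZMod 2 // h ≠ 0} = Fintype.card (Fin t → ZMod 2) - 1 := by
      rw [Fintype.card_subtype_compl, Fintype.card_subtype_eq]
    rw [this]; simp [hb]
  let e : Fin b ≃ {h : Fin t → ZMod 2 // h ≠ 0} := Fintype.equivOfCardEq (by rw [Fintype.card_fin, hN])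
  let col : Fin b → (Fin t → ZMod 2) := fun j => (e j).1
  have hcol : ∀ h, h ≠ 0 → ∃ j, col j = h := fun h hh => ⟨e.symm ⟨h, hh⟩, by simp [col]⟩
  -- the letters
  let φ : (Fin t → ZMod 2) ≃ Fin (2 ^ t) := Fintype.equivOfCardEq (by simp)
  let σ : (Fin (m * b) → Bool) → Fin m → Fin (2 ^ t) := fun x i => φ (synd col (blk x i))
  refine ⟨univ.filter fun x => σ x ∈ C, ?_, ?_⟩
  · intro x
    obtain ⟨c, hc, hxc⟩ := hcov (σ x)
    rcases Nat.le_one_iff_eq_zero_or_eq_one.1 hxc with h0 | h1
    · have h2 : σ x = c := hammingDist_eq_zero.1 h0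
      refine ⟨x, ?_, ?_⟩
      · rw [mem_filter]
        exact ⟨mem_univ _, by rw [h2]; exact hc⟩
      · rw [hammingDist_self]
        exact Nat.zero_le _
    · obtain ⟨i, hi⟩ := card_eq_one.1 h1
      have hi1 : σ x i ≠ c i := by
        have : i ∈ ({i} : Finset (Fin m)) := mem_singleton_self i
        rw [← hi, mem_filter] at this
        exact this.2
      have hi2 : ∀ i', i' ≠ i → σ x i' = c i' := by
        intro i' hne
        by_contra hcon
        have : i' ∈ ({i} : Finset (Fin m)) := by
          rw [← hi, mem_filter]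
          exact ⟨mem_univ _, hcon⟩
        exact hne (mem_singleton.1 this)
      have hδ : synd col (blk x i) + φ.symm (c i) ≠ 0 := by
        intro h
        apply hi1
        have h3 : synd col (blk x i) = φ.symm (c i) := by
          have h4 := congrArg (fun z => z + φ.symm (c i)) h
          simp only [zero_add] at h4
          rw [add_assoc, hadd, add_zero] at h4
          exact h4
        change φ (synd col (blk x i)) = c i
        rw [h3, Equiv.apply_symm_apply]
      obtain ⟨j, hj⟩ := hcol _ hδ
      have hσ : σ (flp x (finProdFinEquiv (i, j))) = c := by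
        funext i'
        by_cases hne : i' = i
        · subst hne
          change φ (synd col (blk (flp x (finProdFinEquiv (i', j))) i')) = c i'
          rw [blk_flp, synd_flp, hj, ← add_assoc, hadd, zero_add, Equiv.apply_symm_apply]
        · change φ (synd col (blk (flp x (finProdFinEquiv (i, j))) i')) = c i'
          rw [blk_flp_ne _ _ _ _ hne]
          exact hi2 i' hne
      refine ⟨flp x (finProdFinEquiv (i, j)), ?_, ?_⟩
      · rw [mem_filter]
        exact ⟨mem_univ _, by rw [hσ]; exact hc⟩
      · have h5 : hammingDist x (flp x (finProdFinEquiv (i, j))) = 1 := flp_adj x _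
        rw [h5]
  · -- the number of words
    have htb : t ≤ b := by
      have := Nat.lt_two_pow_self (n := t)
      omega
    have hfib : ∀ h : Fin t → ZMod 2,
        (univ.filter fun v : Fin b → Bool => synd col v = h).card = 2 ^ (b - t) := by
      intro h
      rw [fib col hcol h]
      have h1 := card_code col hcol
      have h2 : 2 ^ b = 2 ^ t * 2 ^ (b - t) := by
        rw [← pow_add]
        congr 1
        omega
      have h3 : (univ.filter fun v : Fin b → Bool => synd col v = 0).card = 2 ^ (b - t) := by
        apply Nat.eq_of_mul_eq_mul_left (show 0 < 2 ^ t by positivity)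
        rw [← h2, ← h1]
      exact h3
    have hone : ∀ c ∈ C, ((univ.filter fun x => σ x ∈ C).filter fun x => σ x = c).card ≤
        2 ^ (m * (b - t)) := by
      intro c _
      have h1 : ((univ.filter fun x => σ x ∈ C).filter fun x => σ x = c).card ≤
          (Fintype.piFinset fun i : Fin m =>
            univ.filter fun v : Fin b → Bool => synd col v = φ.symm (c i)).card := by
        refine card_le_card_of_injOn blk (fun x hx => ?_) (blk_inj.injOn)
        rw [mem_coe, mem_filter] at hx
        rw [mem_coe, Fintype.mem_piFinset]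
        intro i
        rw [mem_filter]
        refine ⟨mem_univ _, ?_⟩
        have h2 : φ (synd col (blk x i)) = c i := congrFun hx.2 i
        rw [← h2, Equiv.symm_apply_apply]
      refine h1.trans (le_of_eq ?_)
      rw [Fintype.card_piFinset]
      simp only [hfib]
      rw [prod_const, card_univ, Fintype.card_fin, ← pow_mul, mul_comm]
    have hmaps : ∀ x ∈ (univ.filter fun x => σ x ∈ C), σ x ∈ C := fun x hx => (mem_filter.1 hx).2
    have h0 := card_eq_sum_card_fiberwise (f := σ) (s := univ.filter fun x => σ x ∈ C) (t := C)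
      (fun x hx => mem_coe.2 (hmaps x (mem_coe.1 hx)))
    rw [h0]
    calc _ ≤ ∑ _c ∈ C, 2 ^ (m * (b - t)) := sum_le_sum hone
      _ = C.card * 2 ^ (m * (b - t)) := by rw [sum_const, smul_eq_mul]
      _ ≤ N * 2 ^ (m * (b - t)) := Nat.mul_le_mul_right _ hcard

end Pool.Agent.U94.KP
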